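import Pool.Agent.WireCC.Reduce

/-!
Removal of the redundant comparators of a comparator circuit.
-/

set_option autoImplicit false

namespace Pool.Agent.WireCC

open Pool.Agent.LibCC

variable {n m k : ℕ}

/-- The arc leaves a source node or one of the comparators at positions below `t`. -/
def Avail (pos : Fin m → ℕ) (t : ℕ) (e : Arc n m) : Prop :=
  match e with
  | Sum.inl _ => True
  | Sum.inr (g, _) => pos g < t

def Cut (C : CompCircuit n m) (pos : Fin m → ℕ) (t : ℕ) (e : Arc n m) : Prop :=
  Avail pos t e ∧ ∀ p, C.inp p = e → t ≤ pos p.1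

structure Red (C : CompCircuit n m) (pos : Fin m → ℕ) (t : ℕ) {k : ℕ} (R : CompCircuit n k)
    (φ : Arc n m → Arc n k) : Prop where
  val : ∀ x v, C.IsVal x v → ∃ v', R.IsVal x v' ∧ ∀ e, Avail pos t e → v e = v' (φ e)
  snk : ∀ e, Cut C pos t e → Snk R (φ e)
  inj : ∀ e e', Cut C pos t e → Cut C pos t e' → φ e = φ e' → e = e'
  card : k ≤ (pairs R).card
  le : k ≤ (Finset.univ.filter fun g => pos g < t).card

theorem exists_pos (C : CompCircuit n m) : ∃ pos : Fin m → ℕ, Function.Injective pos ∧
    ∀ g b h c, C.inp (g, b) = Sum.inr (h, c) → pos h < pos g := by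
  obtain ⟨ord, hord⟩ := C.acyclic
  refine ⟨fun g => ord g * m + g, ?_, ?_⟩
  · intro g h hgh
    have hg := g.isLt
    have hh := h.isLt
    have h1 : (ord g * m + (g : ℕ)) % m = (ord h * m + (h : ℕ)) % m := by
      simp only at hgh
      rw [hgh]
    rw [Nat.mul_comm (ord g), Nat.mul_comm (ord h), Nat.mul_add_mod, Nat.mul_add_mod,
      Nat.mod_eq_of_lt hg, Nat.mod_eq_of_lt hh] at h1
    exact Fin.ext h1
  · intro g b h c hgh
    have h1 := hord g b h c hgh
    have h2 := h.isLt
    calc ord h * m + (h : ℕ) < ord h * m + m := by omega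
      _ = (ord h + 1) * m := by ring
      _ ≤ ord g * m := Nat.mul_le_mul_right m h1
      _ ≤ ord g * m + (g : ℕ) := Nat.le_add_right _ _

/-- The circuit without comparators. -/
def nil (n : ℕ) : CompCircuit n 0 where
  inp := fun p => p.1.elim0
  inj := fun p => p.1.elim0
  acyclic := ⟨fun g => g.elim0, fun g => g.elim0⟩

theorem red_zero (C : CompCircuit n m) (pos : Fin m → ℕ)
    (hpos : ∀ g b h c, C.inp (g, b) = Sum.inr (h, c) → pos h < pos g) :
    ∃ φ : Arc n m → Arc n 0, Red C pos 0 (nil n) φ := by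
  rcases isEmpty_or_nonempty (Fin n) with he | ⟨⟨i0⟩⟩
  · have hm : IsEmpty (Fin m) := by
      by_contra hcon
      rw [not_isEmpty_iff] at hcon
      obtain ⟨g, hg⟩ := Finite.exists_min pos
      rcases hb : C.inp (g, false) with i | ⟨h, c⟩
      · exact he.elim i
      · have h1 := hpos g false h c hb
        have h2 := hg h
        omega
    have hA : IsEmpty (Arc n m) := by
      rw [isEmpty_sum, isEmpty_prod]
      exact ⟨he, Or.inl hm⟩
    refine ⟨fun e => hA.elim e, ⟨fun x v _ => ⟨fun e => ?_, ⟨fun i => ?_, fun g => ?_,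
      fun g => ?_⟩, fun e => ?_⟩, fun e => ?_, fun e => ?_, Nat.zero_le _, Nat.zero_le _⟩⟩
    · exact true
    · exact he.elim i
    · exact g.elim0
    · exact g.elim0
    · exact hA.elim e
    · exact hA.elim e
    · exact hA.elim e
  · refine ⟨Sum.elim Sum.inl (fun _ => Sum.inl i0), ⟨fun x v hv => ⟨fun e => ?_, ⟨?_, fun g => ?_,
      fun g => ?_⟩, ?_⟩, ?_, ?_, Nat.zero_le _, Nat.zero_le _⟩⟩
    · exact Sum.elim x (fun p => p.1.elim0) e
    · intro i
      rfl
    · exact g.elim0
    · exact g.elim0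
    · rintro (i | ⟨g, b⟩) he
      · exact hv.source i
      · exact absurd he (Nat.not_lt_zero _)
    · intro e he p
      exact p.1.elim0
    · rintro (i | ⟨g, b⟩) (j | ⟨h, c⟩) he he' heq
      · simpa using heq
      · exact absurd he'.1 (Nat.not_lt_zero _)
      · exact absurd he.1 (Nat.not_lt_zero _)
      · exact absurd he.1 (Nat.not_lt_zero _)

theorem avail_succ_of {pos : Fin m → ℕ} {t : ℕ} (h : ∀ g, pos g ≠ t) {e : Arc n m} :
    Avail pos (t + 1) e ↔ Avail pos t e := by
  rcases e with i | ⟨g, b⟩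
  · exact Iff.rfl
  · have := h g
    simp only [Avail]
    omega

theorem le_mono (pos : Fin m → ℕ) (t : ℕ) : (Finset.univ.filter fun g => pos g < t).card ≤
    (Finset.univ.filter fun g => pos g < t + 1).card := by
  apply Finset.card_le_card
  intro g
  simp only [Finset.mem_filter, Finset.mem_univ, true_and]
  omega

theorem red_skip {C : CompCircuit n m} {pos : Fin m → ℕ} {t : ℕ} {R : CompCircuit n k}
    {φ : Arc n m → Arc n k} (h : Red C pos t R φ) (ht : ∀ g, pos g ≠ t) :
    Red C pos (t + 1) R φ := by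
  have hcut : ∀ e, Cut C pos (t + 1) e → Cut C pos t e := by
    rintro e ⟨h1, h2⟩
    refine ⟨(avail_succ_of ht).1 h1, fun p hp => ?_⟩
    have := h2 p hp
    omega
  refine ⟨fun x v hv => ?_, fun e he => h.snk e (hcut e he),
    fun e e' he he' => h.inj e e' (hcut e he) (hcut e' he'), h.card, h.le.trans (le_mono pos t)⟩
  obtain ⟨v', h1, h2⟩ := h.val x v hv
  exact ⟨v', h1, fun e he => h2 e ((avail_succ_of ht).1 he)⟩

section step

variable {C : CompCircuit n m} {pos : Fin m → ℕ} {t : ℕ} {R : CompCircuit n k}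
  {φ : Arc n m → Arc n k} {g : Fin m}

theorem avail_step (hi : Function.Injective pos) (hg : pos g = t) {e : Arc n m}
    (he : Avail pos (t + 1) e) : Avail pos t e ∨ ∃ b, e = Sum.inr (g, b) := by
  rcases e with i | ⟨h, b⟩
  · exact Or.inl trivial
  · simp only [Avail] at he ⊢
    by_cases h1 : pos h = t
    · right
      exact ⟨b, by rw [hi (h1.trans hg.symm)]⟩
    · left
      omega

theorem not_avail (hg : pos g = t) (b : Bool) : ¬ Avail (n := n) pos t (Sum.inr (g, b)) := by
  simp only [Avail]
  omega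

theorem inp_cut (hpos : ∀ g b h c, C.inp (g, b) = Sum.inr (h, c) → pos h < pos g)
    (hg : pos g = t) (b : Bool) : Cut C pos t (C.inp (g, b)) := by
  refine ⟨?_, fun p hp => ?_⟩
  · rcases hb : C.inp (g, b) with i | ⟨h, c⟩
    · trivial
    · have := hpos g b h c hb
      simp only [Avail]
      omega
  · rw [C.inj hp]
    exact hg.ge

theorem cut_step (hi : Function.Injective pos) (hg : pos g = t) {e : Arc n m}
    (he : Cut C pos (t + 1) e) :
    (Cut C pos t e ∧ ∀ b, e ≠ C.inp (g, b)) ∨ ∃ b, e = Sum.inr (g, b) := by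
  rcases avail_step hi hg he.1 with h1 | h1
  · left
    refine ⟨⟨h1, fun p hp => ?_⟩, fun b hb => ?_⟩
    · have := he.2 p hp
      omega
    · have h2 := he.2 (g, b) hb.symm
      have h3 : t + 1 ≤ pos g := h2
      omega
  · exact Or.inr h1

/-- A redundant comparator is replaced by two wires. -/
theorem red_wire (hpos : ∀ g b h c, C.inp (g, b) = Sum.inr (h, c) → pos h < pos g)
    (hi : Function.Injective pos) (h : Red C pos t R φ) (hg : pos g = t) (c : Bool)
    (hle : Le R (φ (C.inp (g, c))) (φ (C.inp (g, !c)))) :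
    ∃ φ' : Arc n m → Arc n k, Red C pos (t + 1) R φ' := by
  classical
  refine ⟨fun e => if e = Sum.inr (g, false) then φ (C.inp (g, c))
    else if e = Sum.inr (g, true) then φ (C.inp (g, !c)) else φ e, ?_⟩
  set φ' : Arc n m → Arc n k := fun e => if e = Sum.inr (g, false) then φ (C.inp (g, c))
    else if e = Sum.inr (g, true) then φ (C.inp (g, !c)) else φ e with hφ'
  have hf : φ' (Sum.inr (g, false)) = φ (C.inp (g, c)) := by
    simp [hφ']
  have ht : φ' (Sum.inr (g, true)) = φ (C.inp (g, !c)) := by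
    simp [hφ']
  have ho : ∀ e, Avail pos t e → φ' e = φ e := by
    intro e he
    rw [hφ']; simp only
    rw [if_neg, if_neg]
    · rintro rfl; exact not_avail hg _ he
    · rintro rfl; exact not_avail hg _ he
  have hout : ∀ b, ∃ b', φ' (Sum.inr (g, b)) = φ (C.inp (g, b')) := by
    rintro (_ | _)
    · exact ⟨c, hf⟩
    · exact ⟨!c, ht⟩
  refine ⟨fun x v hv => ?_, fun e he => ?_, fun e e' he he' heq => ?_, h.card,
    h.le.trans (le_mono pos t)⟩
  · obtain ⟨v', h1, h2⟩ := h.val x v hv
    refine ⟨v', h1, fun e he => ?_⟩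
    rcases avail_step hi hg he with h3 | ⟨b, rfl⟩
    · rw [ho e h3]
      exact h2 e h3
    · have h4 := fun b => h2 _ (inp_cut hpos hg b).1
      have h5 := hle x v' h1
      have h6 := hv.conj g
      have h7 := hv.disj g
      rw [h4 false, h4 true] at h6 h7
      cases b
      · rw [hf, h6]
        cases c
        · rw [Bool.not_false] at h5
          revert h5
          cases v' (φ (C.inp (g, false))) <;> cases v' (φ (C.inp (g, true))) <;> simp
        · rw [Bool.not_true] at h5
          revert h5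
          cases v' (φ (C.inp (g, false))) <;> cases v' (φ (C.inp (g, true))) <;> simp
      · rw [ht, h7]
        cases c
        · rw [Bool.not_false] at h5 ⊢
          revert h5
          cases v' (φ (C.inp (g, false))) <;> cases v' (φ (C.inp (g, true))) <;> simp
        · rw [Bool.not_true] at h5 ⊢
          revert h5
          cases v' (φ (C.inp (g, false))) <;> cases v' (φ (C.inp (g, true))) <;> simp
  · rcases cut_step hi hg he with ⟨h3, h4⟩ | ⟨b, rfl⟩
    · rw [ho e h3.1]
      exact h.snk e h3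
    · obtain ⟨b', hb'⟩ := hout b
      rw [hb']
      exact h.snk _ (inp_cut hpos hg b')
  · have key : ∀ e, Cut C pos t e → (∀ b, e ≠ C.inp (g, b)) → ∀ b,
        φ' e = φ' (Sum.inr (g, b)) → False := by
      intro e h3 h4 b h5
      obtain ⟨b', hb'⟩ := hout b
      rw [ho e h3.1, hb'] at h5
      exact h4 b' (h.inj _ _ h3 (inp_cut hpos hg b') h5)
    have hft : φ' (Sum.inr (g, false)) ≠ φ' (Sum.inr (g, true)) := by
      rw [hf, ht]
      intro h5
      have h6 := C.inj (h.inj _ _ (inp_cut hpos hg _) (inp_cut hpos hg _) h5)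
      cases c <;> simp at h6
    rcases cut_step hi hg he with ⟨h3, h4⟩ | ⟨b, rfl⟩
    · rcases cut_step hi hg he' with ⟨h3', h4'⟩ | ⟨b', rfl⟩
      · rw [ho e h3.1, ho e' h3'.1] at heq
        exact h.inj _ _ h3 h3' heq
      · exact (key e h3 h4 b' heq).elim
    · rcases cut_step hi hg he' with ⟨h3', h4'⟩ | ⟨b', rfl⟩
      · exact (key e' h3' h4' b heq.symm).elim
      · cases b <;> cases b'
        · rfl
        · exact (hft heq).elim
        · exact (hft heq.symm).elim
        · rfl

/-- Any other comparator is kept. -/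
theorem red_gate (hpos : ∀ g b h c, C.inp (g, b) = Sum.inr (h, c) → pos h < pos g)
    (hi : Function.Injective pos) (h : Red C pos t R φ) (hg : pos g = t)
    (h1 : ¬ Le R (φ (C.inp (g, false))) (φ (C.inp (g, true))))
    (h2 : ¬ Le R (φ (C.inp (g, true))) (φ (C.inp (g, false)))) :
    ∃ (R' : CompCircuit n (k + 1)) (φ' : Arc n m → Arc n (k + 1)), Red C pos (t + 1) R' φ' := by
  classical
  set s := φ (C.inp (g, false)) with hs
  set u := φ (C.inp (g, true)) with hu
  have hss : Snk R s := h.snk _ (inp_cut hpos hg _)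
  have hsu : Snk R u := h.snk _ (inp_cut hpos hg _)
  have hne : s ≠ u := by
    intro h5
    have h6 := C.inj (h.inj _ _ (inp_cut hpos hg _) (inp_cut hpos hg _) h5)
    simp at h6
  set φ' : Arc n m → Arc n (k + 1) := fun e => if e = Sum.inr (g, false) then outA n k false
    else if e = Sum.inr (g, true) then outA n k true else emb (φ e) with hφ'
  refine ⟨addGate R s u hss hsu hne, φ', ?_⟩
  have hout : ∀ b, φ' (Sum.inr (g, b)) = outA n k b := by
    rintro (_ | _)
    · simp [hφ']
    · simp [hφ']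
  have ho : ∀ e, Avail pos t e → φ' e = emb (φ e) := by
    intro e he
    rw [hφ']; simp only
    rw [if_neg, if_neg]
    · rintro rfl; exact not_avail hg _ he
    · rintro rfl; exact not_avail hg _ he
  refine ⟨fun x v hv => ?_, fun e he => ?_, fun e e' he he' heq => ?_, ?_, ?_⟩
  · obtain ⟨v', h3, h4⟩ := h.val x v hv
    refine ⟨addVal v' s u, isVal_add h3, fun e he => ?_⟩
    rcases avail_step hi hg he with h5 | ⟨b, rfl⟩
    · rw [ho e h5, addVal_emb]
      exact h4 e h5
    · rw [hout, addVal_out]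
      have h6 := fun b => h4 _ (inp_cut hpos hg b).1
      cases b
      · rw [hv.conj g, h6, h6]
        rfl
      · rw [hv.disj g, h6, h6]
        rfl
  · rcases cut_step hi hg he with ⟨h3, h4⟩ | ⟨b, rfl⟩
    · rw [ho e h3.1]
      refine snk_emb (h.snk e h3) (fun h5 => ?_) (fun h5 => ?_)
      · exact h4 false (h.inj _ _ h3 (inp_cut hpos hg false) h5)
      · exact h4 true (h.inj _ _ h3 (inp_cut hpos hg true) h5)
    · rw [hout]
      exact snk_out b
  · rcases cut_step hi hg he with ⟨h3, h4⟩ | ⟨b, rfl⟩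
    · rcases cut_step hi hg he' with ⟨h3', h4'⟩ | ⟨b', rfl⟩
      · rw [ho e h3.1, ho e' h3'.1] at heq
        exact h.inj _ _ h3 h3' (emb_inj heq)
      · rw [ho e h3.1, hout] at heq
        exact absurd heq (emb_ne_out _ _)
    · rcases cut_step hi hg he' with ⟨h3', h4'⟩ | ⟨b', rfl⟩
      · rw [ho e' h3'.1, hout] at heq
        exact absurd heq.symm (emb_ne_out _ _)
      · rw [hout, hout] at heq
        rw [out_inj heq]
  · have h3 := grow R s u hss hsu hne h1 h2
    have h4 := h.card
    omega
  · have h3 := h.le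
    have h4 : (Finset.univ.filter fun g => pos g < t).card <
        (Finset.univ.filter fun g => pos g < t + 1).card := by
      apply Finset.card_lt_card
      rw [Finset.ssubset_iff]
      refine ⟨g, by simp [hg], ?_⟩
      intro h'
      rw [Finset.mem_insert]
      simp only [Finset.mem_filter, Finset.mem_univ, true_and]
      rintro (rfl | h5)
      · omega
      · omega
    omega

end step

theorem exists_red (C : CompCircuit n m) (pos : Fin m → ℕ) (hi : Function.Injective pos)
    (hpos : ∀ g b h c, C.inp (g, b) = Sum.inr (h, c) → pos h < pos g) (t : ℕ) :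
    ∃ (k : ℕ) (R : CompCircuit n k) (φ : Arc n m → Arc n k), Red C pos t R φ := by
  induction t with
  | zero =>
    obtain ⟨φ, h⟩ := red_zero C pos hpos
    exact ⟨0, nil n, φ, h⟩
  | succ t ih =>
    obtain ⟨k, R, φ, h⟩ := ih
    by_cases hg : ∃ g, pos g = t
    · obtain ⟨g, hg⟩ := hg
      by_cases h1 : Le R (φ (C.inp (g, false))) (φ (C.inp (g, true)))
      · obtain ⟨φ', h'⟩ := red_wire hpos hi h hg false h1
        exact ⟨k, R, φ', h'⟩
      by_cases h2 : Le R (φ (C.inp (g, true))) (φ (C.inp (g, false)))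
      · obtain ⟨φ', h'⟩ := red_wire hpos hi h hg true h2
        exact ⟨k, R, φ', h'⟩
      · obtain ⟨R', φ', h'⟩ := red_gate hpos hi h hg h1 h2
        exact ⟨k + 1, R', φ', h'⟩
    · exact ⟨k, R, φ, red_skip h (fun g hg' => hg ⟨g, hg'⟩)⟩

/-- A comparator circuit with `n` source nodes and any number of comparators is equivalent to one
with at most `n ^ 2` comparators. -/
theorem reduce (C : CompCircuit n m) :
    ∃ (k : ℕ) (R : CompCircuit n k) (φ : Arc n m → Arc n k), k ≤ n ^ 2 ∧ k ≤ m ∧
      ∀ x v, C.IsVal x v → ∃ v', R.IsVal x v' ∧ ∀ e, v e = v' (φ e) := by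
  obtain ⟨pos, hi, hpos⟩ := exists_pos C
  obtain ⟨k, R, φ, h⟩ := exists_red C pos hi hpos (∑ g, pos g + 1)
  refine ⟨k, R, φ, h.card.trans (card_pairs_le R), h.le.trans ?_, fun x v hv => ?_⟩
  · refine (Finset.card_le_univ _).trans ?_
    simp
  obtain ⟨v', h1, h2⟩ := h.val x v hv
  refine ⟨v', h1, fun e => h2 e ?_⟩
  rcases e with i | ⟨g, b⟩
  · trivial
  · have : pos g ≤ ∑ g, pos g := Finset.single_le_sum (fun _ _ => Nat.zero_le _)
      (Finset.mem_univ g)
    simp only [Avail]
    omega

end Pool.Agent.WireCC
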