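import Pool.Agent.LibCC.Push

/-!
Redundant comparators (R. L. Graham). A comparator circuit with `n` source nodes is equivalent to
one with at most `n ^ 2` comparators: a comparator whose two incoming arcs always carry values in
the same known order can be replaced by wires, and every other comparator increases the number of
ordered pairs of current arcs whose values are always in order.
-/

set_option autoImplicit false

namespace Pool.Agent.WireCC

open Pool.Agent.LibCC

variable {n m k : ℕ}

/-- The arcs of a circuit as arcs of the circuit with one more comparator. -/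
def emb (a : Arc n k) : Arc n (k + 1) := Sum.map id (Prod.map Fin.castSucc id) a

/-- The outgoing arcs of the new comparator. -/
def outA (n k : ℕ) (b : Bool) : Arc n (k + 1) := Sum.inr (Fin.last k, b)

theorem emb_inj : Function.Injective (emb : Arc n k → Arc n (k + 1)) := by
  rintro (i | ⟨g, b⟩) (j | ⟨h, c⟩) hab
  · simp only [emb, Sum.map_inl, Sum.inl.injEq, id] at hab
    rw [hab]
  · simp [emb] at hab
  · simp [emb] at hab
  · simp only [emb, Sum.map_inr, Prod.map_apply, Sum.inr.injEq, Prod.mk.injEq, id] at hab
    rw [Fin.castSucc_injective _ hab.1, hab.2]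

theorem emb_ne_out (a : Arc n k) (b : Bool) : emb a ≠ outA n k b := by
  rcases a with i | ⟨g, c⟩
  · simp [emb, outA]
  · intro h
    simp only [emb, outA, Sum.map_inr, Prod.map_apply, Sum.inr.injEq, Prod.mk.injEq, id] at h
    have h1 := congrArg Fin.val h.1
    simp only [Fin.val_castSucc, Fin.val_last] at h1
    have := g.isLt
    omega

theorem out_inj {b c : Bool} (h : outA n k b = outA n k c) : b = c := by
  simpa [outA] using h

/-- The circuit with one more comparator, whose incoming arcs are `s` and `t`. -/
def addInp (R : CompCircuit n k) (s t : Arc n k) (p : Fin (k + 1) × Bool) : Arc n (k + 1) :=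
  Fin.lastCases (motive := fun _ => Arc n (k + 1)) (emb (if p.2 then t else s))
    (fun g => emb (R.inp (g, p.2))) p.1

theorem addInp_last (R : CompCircuit n k) (s t : Arc n k) (b : Bool) :
    addInp R s t (Fin.last k, b) = emb (if b then t else s) := by
  simp [addInp]

theorem addInp_cast (R : CompCircuit n k) (s t : Arc n k) (g : Fin k) (b : Bool) :
    addInp R s t (g.castSucc, b) = emb (R.inp (g, b)) := by
  simp [addInp]

def Snk (R : CompCircuit n k) (a : Arc n k) : Prop := ∀ p, R.inp p ≠ a

theorem addInp_inj (R : CompCircuit n k) (s t : Arc n k) (hs : Snk R s) (ht : Snk R t)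
    (hst : s ≠ t) : Function.Injective (addInp R s t) := by
  rintro ⟨g, b⟩ ⟨h, c⟩ hab
  induction g using Fin.lastCases with
  | last =>
    induction h using Fin.lastCases with
    | last =>
      rw [addInp_last, addInp_last] at hab
      have h1 := emb_inj hab
      cases b <;> cases c
      · rfl
      · simp at h1; exact absurd h1 hst
      · simp at h1; exact absurd h1.symm hst
      · rfl
    | cast h =>
      rw [addInp_last, addInp_cast] at hab
      have h1 := emb_inj hab
      cases b
      · exact absurd h1.symm (hs _)
      · exact absurd h1.symm (ht _)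
  | cast g =>
    induction h using Fin.lastCases with
    | last =>
      rw [addInp_last, addInp_cast] at hab
      have h1 := emb_inj hab
      cases c
      · exact absurd h1 (hs _)
      · exact absurd h1 (ht _)
    | cast h =>
      rw [addInp_cast, addInp_cast] at hab
      have h1 := R.inj (emb_inj hab)
      rw [Prod.mk.injEq] at h1
      rw [h1.1, h1.2]

theorem addInp_acyclic (R : CompCircuit n k) (s t : Arc n k) :
    ∃ ord : Fin (k + 1) → ℕ, ∀ g b h c, addInp R s t (g, b) = Sum.inr (h, c) → ord h < ord g := by
  obtain ⟨ord, hord⟩ := R.acyclic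
  refine ⟨fun g => Fin.lastCases (motive := fun _ => ℕ) (∑ i, ord i + 1) (fun g => ord g) g, ?_⟩
  intro g b h c hgh
  have hout : ∀ a : Arc n k, emb a ≠ Sum.inr (Fin.last k, c) := fun a => emb_ne_out a c
  induction g using Fin.lastCases with
  | last =>
    rw [addInp_last] at hgh
    induction h using Fin.lastCases with
    | last => exact absurd hgh (hout _)
    | cast h =>
      simp only [Fin.lastCases_castSucc, Fin.lastCases_last]
      have : ord h ≤ ∑ i, ord i := Finset.single_le_sum (fun _ _ => Nat.zero_le _)
        (Finset.mem_univ h)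
      omega
  | cast g =>
    rw [addInp_cast] at hgh
    induction h using Fin.lastCases with
    | last => exact absurd hgh (hout _)
    | cast h =>
      simp only [Fin.lastCases_castSucc]
      apply hord g b h c
      apply emb_inj
      rw [hgh]
      simp [emb]

/-- The circuit with one more comparator, whose incoming arcs are `s` and `t`. -/
def addGate (R : CompCircuit n k) (s t : Arc n k) (hs : Snk R s) (ht : Snk R t)
    (hst : s ≠ t) : CompCircuit n (k + 1) where
  inp := addInp R s t
  inj := addInp_inj R s t hs ht hst
  acyclic := addInp_acyclic R s t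

/-- The values on the arcs of the circuit with one more comparator. -/
def addVal (v : Arc n k → Bool) (s t : Arc n k) (e : Arc n (k + 1)) : Bool :=
  match e with
  | Sum.inl i => v (Sum.inl i)
  | Sum.inr (g, b) => Fin.lastCases (motive := fun _ => Bool) (comb b (v s) (v t))
      (fun g' => v (Sum.inr (g', b))) g

theorem addVal_emb (v : Arc n k → Bool) (s t a : Arc n k) : addVal v s t (emb a) = v a := by
  rcases a with i | ⟨g, b⟩
  · rfl
  · simp [addVal, emb]

theorem addVal_out (v : Arc n k → Bool) (s t : Arc n k) (b : Bool) :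
    addVal v s t (outA n k b) = comb b (v s) (v t) := by
  simp [addVal, outA]

theorem isVal_add {R : CompCircuit n k} {s t : Arc n k} {hs : Snk R s} {ht : Snk R t}
    {hst : s ≠ t} {x : Fin n → Bool} {v : Arc n k → Bool} (h : R.IsVal x v) :
    (addGate R s t hs ht hst).IsVal x (addVal v s t) := by
  refine ⟨fun i => h.source i, fun g => ?_, fun g => ?_⟩
  · change addVal v s t _ = (addVal v s t (addInp R s t (g, false)) &&
      addVal v s t (addInp R s t (g, true)))
    induction g using Fin.lastCases with
    | last =>
      rw [addInp_last, addInp_last, addVal_emb, addVal_emb]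
      exact addVal_out v s t false
    | cast g =>
      rw [addInp_cast, addInp_cast, addVal_emb, addVal_emb, ← h.conj g]
      exact addVal_emb v s t (Sum.inr (g, false))
  · change addVal v s t _ = (addVal v s t (addInp R s t (g, false)) ||
      addVal v s t (addInp R s t (g, true)))
    induction g using Fin.lastCases with
    | last =>
      rw [addInp_last, addInp_last, addVal_emb, addVal_emb]
      exact addVal_out v s t true
    | cast g =>
      rw [addInp_cast, addInp_cast, addVal_emb, addVal_emb, ← h.disj g]
      exact addVal_emb v s t (Sum.inr (g, true))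

theorem isVal_restrict {R : CompCircuit n k} {s t : Arc n k} {hs : Snk R s} {ht : Snk R t}
    {hst : s ≠ t} {x : Fin n → Bool} {w : Arc n (k + 1) → Bool}
    (h : (addGate R s t hs ht hst).IsVal x w) :
    R.IsVal x (fun a => w (emb a)) ∧ ∀ b, w (outA n k b) = comb b (w (emb s)) (w (emb t)) := by
  refine ⟨⟨fun i => h.source i, fun g => ?_, fun g => ?_⟩, ?_⟩
  · have h1 := h.conj g.castSucc
    change w _ = (w (addInp R s t (g.castSucc, false)) && w (addInp R s t (g.castSucc, true)))
      at h1
    rw [addInp_cast, addInp_cast] at h1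
    exact h1
  · have h1 := h.disj g.castSucc
    change w _ = (w (addInp R s t (g.castSucc, false)) || w (addInp R s t (g.castSucc, true)))
      at h1
    rw [addInp_cast, addInp_cast] at h1
    exact h1
  · rintro (_ | _)
    · have h1 := h.conj (Fin.last k)
      change w _ = (w (addInp R s t (Fin.last k, false)) && w (addInp R s t (Fin.last k, true)))
        at h1
      rw [addInp_last, addInp_last] at h1
      exact h1
    · have h1 := h.disj (Fin.last k)
      change w _ = (w (addInp R s t (Fin.last k, false)) || w (addInp R s t (Fin.last k, true)))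
        at h1
      rw [addInp_last, addInp_last] at h1
      exact h1

/-- The value on `a` never exceeds the value on `b`. -/
def Le (R : CompCircuit n k) (a b : Arc n k) : Prop :=
  ∀ x v, R.IsVal x v → v a = true → v b = true

open Classical in
/-- The ordered pairs of distinct sinks whose values are always in order. -/
noncomputable def pairs (R : CompCircuit n k) : Finset (Arc n k × Arc n k) :=
  Finset.univ.filter fun q => q.1 ≠ q.2 ∧ Snk R q.1 ∧ Snk R q.2 ∧ Le R q.1 q.2

theorem mem_pairs {R : CompCircuit n k} {a b : Arc n k} :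
    (a, b) ∈ pairs R ↔ a ≠ b ∧ Snk R a ∧ Snk R b ∧ Le R a b := by
  simp [pairs]

theorem card_snk (R : CompCircuit n k) : {a | Snk R a}.ncard = n := by
  classical
  have h1 : {a | Snk R a} = (Set.range R.inp)ᶜ := by
    ext a
    simp [Snk]
  have h2 := Set.ncard_add_ncard_compl (Set.range R.inp)
  rw [← h1] at h2
  have h3 : (Set.range R.inp).ncard = k * 2 := by
    rw [← Set.image_univ, Set.ncard_image_of_injective _ R.inj, Set.ncard_univ,
      Nat.card_eq_fintype_card]
    simp
  have h4 : Nat.card (Arc n k) = n + k * 2 := by
    rw [Nat.card_eq_fintype_card]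
    simp
  omega

theorem card_pairs_le (R : CompCircuit n k) : (pairs R).card ≤ n ^ 2 := by
  classical
  have h1 : (pairs R).card ≤ ((Finset.univ.filter fun a => Snk R a) ×ˢ
      (Finset.univ.filter fun a => Snk R a)).card := by
    apply Finset.card_le_card
    rintro ⟨a, b⟩ hab
    rw [mem_pairs] at hab
    simp [hab.2.1, hab.2.2.1]
  have h2 : (Finset.univ.filter fun a => Snk R a).card = n := by
    refine Eq.trans ?_ (card_snk R)
    rw [Set.ncard_eq_toFinset_card']
    congr 1
    ext a
    simp
  rw [Finset.card_product, h2] at h1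
  rw [sq]
  exact h1

section grow

variable {R : CompCircuit n k} {s t : Arc n k} {hs : Snk R s} {ht : Snk R t} {hst : s ≠ t}

theorem snk_emb {a : Arc n k} (ha : Snk R a) (h1 : a ≠ s) (h2 : a ≠ t) :
    Snk (addGate R s t hs ht hst) (emb a) := by
  rintro ⟨g, b⟩ h
  change addInp R s t (g, b) = emb a at h
  induction g using Fin.lastCases with
  | last =>
    rw [addInp_last] at h
    have h3 := emb_inj h
    cases b
    · exact h1 h3.symm
    · exact h2 h3.symm
  | cast g =>
    rw [addInp_cast] at h
    exact ha _ (emb_inj h)

theorem snk_out (b : Bool) : Snk (addGate R s t hs ht hst) (outA n k b) := by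
  rintro ⟨g, c⟩ h
  change addInp R s t (g, c) = outA n k b at h
  induction g using Fin.lastCases with
  | last =>
    rw [addInp_last] at h
    exact emb_ne_out _ _ h
  | cast g =>
    rw [addInp_cast] at h
    exact emb_ne_out _ _ h

theorem le_emb_emb {a b : Arc n k} (h : Le R a b) :
    Le (addGate R s t hs ht hst) (emb a) (emb b) :=
  fun x _ hw => h x _ (isVal_restrict hw).1

theorem le_emb_false {a : Arc n k} (h1 : Le R a s) (h2 : Le R a t) :
    Le (addGate R s t hs ht hst) (emb a) (outA n k false) := by
  intro x w hw ha
  have h3 := isVal_restrict hw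
  rw [h3.2 false]
  have h4 : w (emb s) = true := h1 x _ h3.1 ha
  have h5 : w (emb t) = true := h2 x _ h3.1 ha
  simp [comb, h4, h5]

theorem le_emb_true {a : Arc n k} (h1 : Le R a s ∨ Le R a t) :
    Le (addGate R s t hs ht hst) (emb a) (outA n k true) := by
  intro x w hw ha
  have h3 := isVal_restrict hw
  rw [h3.2 true]
  rcases h1 with h1 | h1
  · have h4 : w (emb s) = true := h1 x _ h3.1 ha
    simp [comb, h4]
  · have h4 : w (emb t) = true := h1 x _ h3.1 ha
    simp [comb, h4]

theorem le_true_emb {b : Arc n k} (h1 : Le R s b) (h2 : Le R t b) :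
    Le (addGate R s t hs ht hst) (outA n k true) (emb b) := by
  intro x w hw ha
  have h3 := isVal_restrict hw
  rw [h3.2 true] at ha
  rcases h4 : w (emb s) with _ | _
  · rw [h4] at ha
    exact h2 x _ h3.1 (by simpa [comb] using ha)
  · exact h1 x _ h3.1 h4

theorem le_false_emb {b : Arc n k} (h1 : Le R s b ∨ Le R t b) :
    Le (addGate R s t hs ht hst) (outA n k false) (emb b) := by
  intro x w hw ha
  have h3 := isVal_restrict hw
  rw [h3.2 false] at ha
  have h4 : w (emb s) = true ∧ w (emb t) = true := by simpa [comb] using ha
  rcases h1 with h1 | h1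
  · exact h1 x _ h3.1 h4.1
  · exact h1 x _ h3.1 h4.2

theorem le_false_true : Le (addGate R s t hs ht hst) (outA n k false) (outA n k true) := by
  intro x w hw ha
  have h3 := isVal_restrict hw
  rw [h3.2 false] at ha
  rw [h3.2 true]
  have h4 : w (emb s) = true ∧ w (emb t) = true := by simpa [comb] using ha
  simp [comb, h4.1]

open Classical in
/-- The pair of sinks that takes the place of the pair `q`. -/
noncomputable def psi (R : CompCircuit n k) (s t : Arc n k) (q : Arc n k × Arc n k) :
    Arc n (k + 1) × Arc n (k + 1) :=
  if q.2 = s then (emb q.1, if Le R q.1 t then outA n k false else outA n k true)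
  else if q.2 = t then (emb q.1, outA n k true)
  else if q.1 = s then (if Le R t q.2 then outA n k true else outA n k false, emb q.2)
  else if q.1 = t then (outA n k false, emb q.2)
  else (emb q.1, emb q.2)

theorem psi_mem (h1 : ¬ Le R s t) (h2 : ¬ Le R t s) {q : Arc n k × Arc n k} (hq : q ∈ pairs R) :
    psi R s t q ∈ (pairs (addGate R s t hs ht hst)).erase (outA n k false, outA n k true) := by
  obtain ⟨a, b⟩ := q
  rw [mem_pairs] at hq
  obtain ⟨hab, ha, hb, hle⟩ := hq
  rw [Finset.mem_erase]
  unfold psi
  simp only
  by_cases hbs : b = s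
  · subst hbs
    have hat : a ≠ t := by rintro rfl; exact h2 hle
    rw [if_pos rfl]
    by_cases hat' : Le R a t
    · rw [if_pos hat']
      refine ⟨?_, mem_pairs.2 ⟨emb_ne_out _ _, snk_emb ha hab hat, snk_out _,
        le_emb_false hle hat'⟩⟩
      rw [Ne, Prod.mk.injEq, not_and_or]
      exact Or.inl (emb_ne_out _ _)
    · rw [if_neg hat']
      refine ⟨?_, mem_pairs.2 ⟨emb_ne_out _ _, snk_emb ha hab hat, snk_out _,
        le_emb_true (Or.inl hle)⟩⟩
      rw [Ne, Prod.mk.injEq, not_and_or]
      exact Or.inl (emb_ne_out _ _)
  rw [if_neg hbs]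
  by_cases hbt : b = t
  · subst hbt
    have has : a ≠ s := by rintro rfl; exact h1 hle
    rw [if_pos rfl]
    refine ⟨?_, mem_pairs.2 ⟨emb_ne_out _ _, snk_emb ha has hab, snk_out _,
      le_emb_true (Or.inr hle)⟩⟩
    rw [Ne, Prod.mk.injEq, not_and_or]
    exact Or.inl (emb_ne_out _ _)
  rw [if_neg hbt]
  by_cases has : a = s
  · subst has
    rw [if_pos rfl]
    by_cases htb : Le R t b
    · rw [if_pos htb]
      refine ⟨?_, mem_pairs.2 ⟨(emb_ne_out _ _).symm, snk_out _, snk_emb hb hbs hbt,
        le_true_emb hle htb⟩⟩
      rw [Ne, Prod.mk.injEq, not_and_or]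
      exact Or.inr (emb_ne_out _ _)
    · rw [if_neg htb]
      refine ⟨?_, mem_pairs.2 ⟨(emb_ne_out _ _).symm, snk_out _, snk_emb hb hbs hbt,
        le_false_emb (Or.inl hle)⟩⟩
      rw [Ne, Prod.mk.injEq, not_and_or]
      exact Or.inr (emb_ne_out _ _)
  rw [if_neg has]
  by_cases hat : a = t
  · subst hat
    rw [if_pos rfl]
    refine ⟨?_, mem_pairs.2 ⟨(emb_ne_out _ _).symm, snk_out _, snk_emb hb hbs hbt,
      le_false_emb (Or.inr hle)⟩⟩
    rw [Ne, Prod.mk.injEq, not_and_or]
    exact Or.inr (emb_ne_out _ _)
  rw [if_neg hat]
  refine ⟨?_, mem_pairs.2 ⟨fun h => hab (emb_inj h), snk_emb ha has hat, snk_emb hb hbs hbt,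
    le_emb_emb hle⟩⟩
  rw [Ne, Prod.mk.injEq, not_and_or]
  exact Or.inl (emb_ne_out _ _)

theorem psi_inj : Set.InjOn (psi R s t) (pairs R) := by
  have ne1 : ∀ (a : Arc n k) (b : Bool), emb a = outA n k b ↔ False :=
    fun a b => iff_false_intro (emb_ne_out a b)
  have ne2 : ∀ (a : Arc n k) (b : Bool), outA n k b = emb a ↔ False :=
    fun a b => iff_false_intro (emb_ne_out a b).symm
  have ie : ∀ a b : Arc n k, emb a = emb b ↔ a = b := fun a b => emb_inj.eq_iff
  have tf : (outA n k true = outA n k false) ↔ False :=
    iff_false_intro (fun h => by simpa using out_inj h)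
  have ft : (outA n k false = outA n k true) ↔ False :=
    iff_false_intro (fun h => by simpa using out_inj h)
  rintro ⟨a, b⟩ hq ⟨c, d⟩ hq' heq
  rw [Finset.mem_coe, mem_pairs] at hq hq'
  obtain ⟨hab, -, -, hle⟩ := hq
  obtain ⟨hcd, -, -, hle'⟩ := hq'
  unfold psi at heq
  simp only at heq
  split_ifs at heq <;>
    simp only [Prod.mk.injEq, ne1, ne2, ie, tf, ft, and_true, true_and, and_false, false_and]
      at heq <;> simp_all

end grow

theorem grow (R : CompCircuit n k) (s t : Arc n k) (hs : Snk R s) (ht : Snk R t) (hst : s ≠ t)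
    (h1 : ¬ Le R s t) (h2 : ¬ Le R t s) :
    (pairs R).card + 1 ≤ (pairs (addGate R s t hs ht hst)).card := by
  classical
  have h3 : (pairs R).card ≤
      ((pairs (addGate R s t hs ht hst)).erase (outA n k false, outA n k true)).card :=
    Finset.card_le_card_of_injOn (psi R s t) (fun q hq => psi_mem h1 h2 hq) psi_inj
  have h4 : (outA n k false, outA n k true) ∈ pairs (addGate R s t hs ht hst) := by
    rw [mem_pairs]
    refine ⟨fun h => ?_, snk_out _, snk_out _, le_false_true⟩
    have := out_inj h
    simp at this
  have h5 := Finset.card_erase_add_one h4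
  omega

end Pool.Agent.WireCC
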