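import Pool.Agent.LibCC89.Statement
import Pool.Agent.WireCC.Main

/-!
Hard-wiring of some input bits of a Boolean circuit, parallel composition, and the bound in terms
of the number of wires.
-/

set_option autoImplicit false

namespace Pool.Agent.WireCC

open Pool.Agent.LibCC Pool.Agent.LibCCV Pool.Agent.LibCC89

/-- The node `a`, or the constant it has been replaced by. -/
def nd {α β : Type} {W : ℕ} (σ : α → Bool ⊕ β) : α ⊕ Fin W → Bool ⊕ (β ⊕ Fin W)
  | Sum.inl a => Sum.map id Sum.inl (σ a)
  | Sum.inr i => Sum.inr (Sum.inr i)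

def sub {ν : Type} {μ : Type} (τ : ν → Bool ⊕ μ) : BGate ν → BGate μ
  | .const b => .const b
  | .wire a => match τ a with
    | Sum.inl b => .const b
    | Sum.inr y => .wire y
  | .neg a => match τ a with
    | Sum.inl b => .const (!b)
    | Sum.inr y => .neg y
  | .and a b => match τ a, τ b with
    | Sum.inl c, Sum.inl d => .const (c && d)
    | Sum.inl c, Sum.inr y => if c then .wire y else .const false
    | Sum.inr y, Sum.inl d => if d then .wire y else .const false
    | Sum.inr y, Sum.inr z => .and y z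
  | .or a b => match τ a, τ b with
    | Sum.inl c, Sum.inl d => .const (c || d)
    | Sum.inl c, Sum.inr y => if c then .const true else .wire y
    | Sum.inr y, Sum.inl d => if d then .const true else .wire y
    | Sum.inr y, Sum.inr z => .or y z

theorem sub_eval {ν μ : Type} (τ : ν → Bool ⊕ μ) (x : μ → Bool) (G : BGate ν) :
    (sub τ G).eval x = G.eval (fun a => Sum.elim id x (τ a)) := by
  cases G with
  | const b => rfl
  | wire a =>
    unfold sub
    simp only [BGate.eval]
    cases h : τ a <;> simp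
  | neg a =>
    unfold sub
    simp only [BGate.eval]
    cases h : τ a <;> simp
  | and a b =>
    unfold sub
    simp only [BGate.eval]
    rcases h : τ a with c | y <;> rcases h' : τ b with d | z
    · simp
    · cases c <;> simp
    · cases d <;> simp
    · simp
  | or a b =>
    unfold sub
    simp only [BGate.eval]
    rcases h : τ a with c | y <;> rcases h' : τ b with d | z
    · simp
    · cases c <;> simp
    · cases d <;> simp
    · simp

/-- Some input bits may be fixed or renamed. -/
theorem hardwire {α β : Type} {W : ℕ} (σ : α → Bool ⊕ β) (B : BCircuit α W) :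
    ∃ B' : BCircuit β W, ∀ (x : β → Bool) (k : ℕ),
      B'.level x k = B.level (fun a => Sum.elim id x (σ a)) k := by
  refine ⟨⟨fun k i => sub (nd σ) (B.gate k i)⟩, fun x k => ?_⟩
  induction k with
  | zero => rfl
  | succ k ih =>
    funext i
    change (sub (nd σ) (B.gate k i)).eval _ = (B.gate k i).eval _
    rw [sub_eval, ih]
    congr 1
    funext a
    rcases a with a | j
    · simp only [nd, Sum.elim_inl]
      rcases σ a with b | y <;> rfl
    · rfl

/-- Circuits of a finite family side by side. -/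
theorem parallel {α ι : Type} [Fintype ι] {W : ℕ} (B : ι → BCircuit α W) :
    ∃ (B' : BCircuit α (Fintype.card ι * W)) (f : ι → Fin W → Fin (Fintype.card ι * W)),
      ∀ (x : α → Bool) (k : ℕ) (i : ι) (j : Fin W), B'.level x k (f i j) = (B i).level x k j := by
  classical
  let e : Fin (Fintype.card ι * W) ≃ ι × Fin W :=
    finProdFinEquiv.symm.trans (Equiv.prodCongr (Fintype.equivFin ι).symm (Equiv.refl _))
  refine ⟨⟨fun k w => ((B (e w).1).gate k (e w).2).map (Sum.map id fun j => e.symm ((e w).1, j))⟩,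
    fun i j => e.symm (i, j), fun x k => ?_⟩
  induction k with
  | zero => intro i j; rfl
  | succ k ih =>
    intro i j
    change BGate.eval _ (((B (e (e.symm (i, j))).1).gate k (e (e.symm (i, j))).2).map _) = _
    rw [BGate.eval_map]
    change _ = ((B i).gate k j).eval _
    rw [Equiv.apply_symm_apply]
    congr 1
    funext a
    rcases a with a | a
    · rfl
    · exact ih i a

/-- The bound in terms of the number of wires. There is a constant `c` such that every comparator
circuit with `n` source nodes and any number `m` of comparators has a levelled Boolean circuit of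
fan-in at most two with `c * (n + 1) ^ c` gates on every level which computes the values on all
arcs from the bits of the source nodes in depth at most
`c * (log₂ (n + 1) + 1) ^ c * (min (m + 1) ((n + 1) ^ 2)) ^ (1 / 3)`. -/
def WireForm : Prop :=
  ∃ c : ℕ, ∀ (n m : ℕ) (C : CompCircuit n m),
    ∃ (D : ℕ) (B : BCircuit (Fin n) (c * (n + 1) ^ c)) (o : Arc n m → Fin (c * (n + 1) ^ c)),
      (D : ℝ) ≤ c * ((Nat.log 2 (n + 1) : ℝ) + 1) ^ c *
        (min ((m : ℝ) + 1) (((n : ℝ) + 1) ^ 2)) ^ (1 / 3 : ℝ) ∧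
      ∀ (x : Fin n → Bool) (v : Arc n m → Bool), C.IsVal x v →
        ∀ e : Arc n m, B.level x D (o e) = v e

theorem wire_of_final (h : Final) : WireForm := by
  classical
  obtain ⟨c, hc⟩ := h
  refine ⟨(c + 2) * 4 ^ (c + 2), fun n m C => ?_⟩
  obtain ⟨k, R, φ, hk1, hk2, hR⟩ := reduce C
  obtain ⟨D, B, o, hD, hB⟩ := hc n k
  -- one circuit for every arc of the reduced circuit
  have hex : ∀ f : Arc n k, ∃ B' : BCircuit (Fin n) (c * (n + 2 * k + 1) ^ c),
      ∀ (x : Fin n → Bool) (v : Arc n k → Bool), R.IsVal x v → B'.level x D o = v f := by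
    intro f
    obtain ⟨B', hB'⟩ := hardwire (fun b : Bit n k => match b with
      | .link p a => Sum.inl (decide (R.inp p = a))
      | .src i => Sum.inr i
      | .goal a => Sum.inl (decide (f = a))) B
    refine ⟨B', fun x v hv => ?_⟩
    rw [hB', ← hB R x v hv f]
    congr 2
    funext b
    cases b <;> rfl
  choose B1 hB1 using hex
  obtain ⟨B2, g, hB2⟩ := parallel B1
  set N := n + 1 with hN
  have hN1 : 1 ≤ N := by omega
  have hkN : n + 2 * k + 1 ≤ 2 * N ^ 2 := by
    rw [hN]
    nlinarith
  have hW : Fintype.card (Arc n k) * (c * (n + 2 * k + 1) ^ c) ≤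
      (c + 2) * 4 ^ (c + 2) * N ^ ((c + 2) * 4 ^ (c + 2)) := by
    have h1 : Fintype.card (Arc n k) ≤ 2 * N ^ 2 := by
      have : Fintype.card (Arc n k) = n + k * 2 := by simp
      omega
    have h4 : (1 : ℕ) ≤ 4 ^ (c + 2) := Nat.one_le_pow _ _ (by norm_num)
    calc Fintype.card (Arc n k) * (c * (n + 2 * k + 1) ^ c)
        ≤ (2 * N ^ 2) * (c * (2 * N ^ 2) ^ c) :=
          Nat.mul_le_mul h1 (Nat.mul_le_mul le_rfl (Nat.pow_le_pow_left hkN c))
      _ = c * 2 ^ (c + 1) * N ^ (2 * c + 2) := by
          rw [mul_pow, ← pow_mul]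
          ring
      _ ≤ (c + 2) * 4 ^ (c + 2) * N ^ ((c + 2) * 4 ^ (c + 2)) := by
          refine Nat.mul_le_mul (Nat.mul_le_mul (by omega) ?_) (Nat.pow_le_pow_right hN1 ?_)
          · calc 2 ^ (c + 1) ≤ 4 ^ (c + 1) := Nat.pow_le_pow_left (by norm_num) _
              _ ≤ 4 ^ (c + 2) := Nat.pow_le_pow_right (by norm_num) (by omega)
          · calc 2 * c + 2 ≤ (c + 2) * 4 := by omega
              _ ≤ (c + 2) * 4 ^ (c + 2) := by
                  refine Nat.mul_le_mul le_rfl ?_
                  calc 4 = 4 ^ 1 := (pow_one 4).symm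
                    _ ≤ 4 ^ (c + 2) := Nat.pow_le_pow_right (by norm_num) (by omega)
  obtain ⟨B3, hB3⟩ := BCircuit.widen hW B2
  refine ⟨D, B3, fun e => Fin.castLE hW (g (φ e) o), ?_, ?_⟩
  · have hlog : (Nat.log 2 (n + 2 * k + 1) : ℝ) + 1 ≤ 4 * ((Nat.log 2 N : ℝ) + 1) := by
      have h1 : Nat.log 2 (n + 2 * k + 1) + 1 ≤ 4 * (Nat.log 2 N + 1) := by
        have h2 : n + 2 * k + 1 < 2 ^ (2 * (Nat.log 2 N + 1) + 1) := by
          have h3 : N < 2 ^ (Nat.log 2 N + 1) := Nat.lt_pow_succ_log_self (by norm_num) N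
          calc n + 2 * k + 1 ≤ 2 * N ^ 2 := hkN
            _ < 2 * (2 ^ (Nat.log 2 N + 1)) ^ 2 := by
                have := Nat.pow_lt_pow_left h3 (n := 2) (by norm_num)
                omega
            _ = 2 ^ (2 * (Nat.log 2 N + 1) + 1) := by
                rw [← pow_mul, pow_succ]
                ring
        have h4 : Nat.log 2 (n + 2 * k + 1) < 2 * (Nat.log 2 N + 1) + 1 :=
          Nat.log_lt_of_lt_pow (by omega) h2
        omega
      exact_mod_cast h1
    have hk3 : ((k : ℝ) + 1) ≤ min ((m : ℝ) + 1) (((n : ℝ) + 1) ^ 2) := by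
      rw [le_min_iff]
      constructor
      · have : (k : ℝ) ≤ m := by exact_mod_cast hk2
        linarith
      · have h1 : (k : ℝ) ≤ (n : ℝ) ^ 2 := by exact_mod_cast hk1
        have h2 : (0 : ℝ) ≤ n := Nat.cast_nonneg n
        nlinarith
    have hk0 : (0 : ℝ) ≤ (k : ℝ) + 1 := by positivity
    have hc0 : (0 : ℝ) ≤ c := Nat.cast_nonneg c
    have hl1 : (1 : ℝ) ≤ (Nat.log 2 N : ℝ) + 1 := by
      have : (0 : ℝ) ≤ (Nat.log 2 N : ℝ) := Nat.cast_nonneg _
      linarith
    have hl0 : (0 : ℝ) ≤ (Nat.log 2 (n + 2 * k + 1) : ℝ) + 1 := by positivity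
    have hlogN : (Nat.log 2 (n + 1) : ℝ) = Nat.log 2 N := by rw [hN]
    rw [hlogN]
    calc (D : ℝ) ≤ c * ((Nat.log 2 (n + 2 * k + 1) : ℝ) + 1) ^ c * ((k : ℝ) + 1) ^ (1 / 3 : ℝ) :=
          hD
      _ ≤ c * (4 * ((Nat.log 2 N : ℝ) + 1)) ^ c *
          (min ((m : ℝ) + 1) (((n : ℝ) + 1) ^ 2)) ^ (1 / 3 : ℝ) := by
          apply mul_le_mul
          · exact mul_le_mul_of_nonneg_left (pow_le_pow_left₀ hl0 hlog c) hc0
          · exact Real.rpow_le_rpow hk0 hk3 (by norm_num)
          · positivity
          · positivity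
      _ ≤ ((((c + 2) * 4 ^ (c + 2) : ℕ)) : ℝ) *
          ((Nat.log 2 N : ℝ) + 1) ^ ((c + 2) * 4 ^ (c + 2)) *
          (min ((m : ℝ) + 1) (((n : ℝ) + 1) ^ 2)) ^ (1 / 3 : ℝ) := by
          apply mul_le_mul_of_nonneg_right _ (by positivity)
          rw [mul_pow, ← mul_assoc]
          apply mul_le_mul
          · have h1 : c * 4 ^ c ≤ (c + 2) * 4 ^ (c + 2) :=
              Nat.mul_le_mul (by omega) (Nat.pow_le_pow_right (by norm_num) (by omega))
            exact_mod_cast h1
          · apply pow_le_pow_right₀ hl1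
            calc c ≤ (c + 2) * 1 := by omega
              _ ≤ (c + 2) * 4 ^ (c + 2) :=
                Nat.mul_le_mul le_rfl (Nat.one_le_pow _ _ (by norm_num))
          · positivity
          · positivity
  · intro x v hv e
    obtain ⟨v', h1, h2⟩ := hR x v hv
    rw [hB3, hB2, hB1 (φ e) x v' h1, h2 e]

end Pool.Agent.WireCC
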