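import Pool.Agent.LibCQ62.Final
import Pool.Agent.WireCC.Wire

/-!
The bounds of `LibCQ62.quarterRoot` together with the bound in terms of the number of wires.
-/

set_option autoImplicit false

namespace Pool.Agent.WireCC

open Pool.Agent.LibCC Pool.Agent.LibCCV Pool.Agent.LibCC89

/-- A universal evaluator of depth `(m + 1) ^ p` gives, for every comparator circuit with `n`
sources and any number `m` of comparators, circuits for all arcs of size polynomial in `n` and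
depth `min (m + 1) ((n + 1) ^ 2) ^ p`, up to logarithms of `n`. -/
theorem wire_of_eval (p : ℝ) (hp : 0 ≤ p)
    (h : ∃ c : ℕ, ∀ n m : ℕ,
      ∃ (D : ℕ) (B : BCircuit (Bit n m) (c * (n + 2 * m + 1) ^ c))
        (o : Fin (c * (n + 2 * m + 1) ^ c)),
        (D : ℝ) ≤ c * ((Nat.log 2 (n + 2 * m + 1) : ℝ) + 1) ^ c * ((m : ℝ) + 1) ^ p ∧
        ∀ (C : CompCircuit n m) (x : Fin n → Bool) (v : Arc n m → Bool), C.IsVal x v →
          ∀ e : Arc n m, B.level (encode C x e) D o = v e) :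
    ∃ c : ℕ, ∀ (n m : ℕ) (C : CompCircuit n m),
      ∃ (D : ℕ) (B : BCircuit (Fin n) (c * (n + 1) ^ c)) (o : Arc n m → Fin (c * (n + 1) ^ c)),
        (D : ℝ) ≤ c * ((Nat.log 2 (n + 1) : ℝ) + 1) ^ c *
          (min ((m : ℝ) + 1) (((n : ℝ) + 1) ^ 2)) ^ p ∧
        ∀ (x : Fin n → Bool) (v : Arc n m → Bool), C.IsVal x v →
          ∀ e : Arc n m, B.level x D (o e) = v e := by
  classical
  obtain ⟨c, hc⟩ := h
  refine ⟨(c + 2) * 4 ^ (c + 2), fun n m C => ?_⟩
  obtain ⟨k, R, φ, hk1, hk2, hR⟩ := reduce C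
  obtain ⟨D, B, o, hD, hB⟩ := hc n k
  -- one circuit for every arc of the reduced circuit
  have hex : ∀ f : Arc n k, ∃ B' : BCircuit (Fin n) (c * (n + 2 * k + 1) ^ c),
      ∀ (x : Fin n → Bool) (v : Arc n k → Bool), R.IsVal x v → B'.level x D o = v f := by
    intro f
    obtain ⟨B', hB'⟩ := hardwire (fun b : Bit n k => match b with
      | .link p a => Sum.inl (decide (R.inp p = a))
      | .src i => Sum.inr i
      | .goal a => Sum.inl (decide (f = a))) B
    refine ⟨B', fun x v hv => ?_⟩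
    rw [hB', ← hB R x v hv f]
    congr 2
    funext b
    cases b <;> rfl
  choose B1 hB1 using hex
  obtain ⟨B2, g, hB2⟩ := parallel B1
  set N := n + 1 with hN
  have hN1 : 1 ≤ N := by omega
  have hkN : n + 2 * k + 1 ≤ 2 * N ^ 2 := by
    rw [hN]
    nlinarith
  have hW : Fintype.card (Arc n k) * (c * (n + 2 * k + 1) ^ c) ≤
      (c + 2) * 4 ^ (c + 2) * N ^ ((c + 2) * 4 ^ (c + 2)) := by
    have h1 : Fintype.card (Arc n k) ≤ 2 * N ^ 2 := by
      have : Fintype.card (Arc n k) = n + k * 2 := by simp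
      omega
    have h4 : (1 : ℕ) ≤ 4 ^ (c + 2) := Nat.one_le_pow _ _ (by norm_num)
    calc Fintype.card (Arc n k) * (c * (n + 2 * k + 1) ^ c)
        ≤ (2 * N ^ 2) * (c * (2 * N ^ 2) ^ c) :=
          Nat.mul_le_mul h1 (Nat.mul_le_mul le_rfl (Nat.pow_le_pow_left hkN c))
      _ = c * 2 ^ (c + 1) * N ^ (2 * c + 2) := by
          rw [mul_pow, ← pow_mul]
          ring
      _ ≤ (c + 2) * 4 ^ (c + 2) * N ^ ((c + 2) * 4 ^ (c + 2)) := by
          refine Nat.mul_le_mul (Nat.mul_le_mul (by omega) ?_) (Nat.pow_le_pow_right hN1 ?_)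
          · calc 2 ^ (c + 1) ≤ 4 ^ (c + 1) := Nat.pow_le_pow_left (by norm_num) _
              _ ≤ 4 ^ (c + 2) := Nat.pow_le_pow_right (by norm_num) (by omega)
          · calc 2 * c + 2 ≤ (c + 2) * 4 := by omega
              _ ≤ (c + 2) * 4 ^ (c + 2) := by
                  refine Nat.mul_le_mul le_rfl ?_
                  calc 4 = 4 ^ 1 := (pow_one 4).symm
                    _ ≤ 4 ^ (c + 2) := Nat.pow_le_pow_right (by norm_num) (by omega)
  obtain ⟨B3, hB3⟩ := BCircuit.widen hW B2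
  refine ⟨D, B3, fun e => Fin.castLE hW (g (φ e) o), ?_, ?_⟩
  · have hlog : (Nat.log 2 (n + 2 * k + 1) : ℝ) + 1 ≤ 4 * ((Nat.log 2 N : ℝ) + 1) := by
      have h1 : Nat.log 2 (n + 2 * k + 1) + 1 ≤ 4 * (Nat.log 2 N + 1) := by
        have h2 : n + 2 * k + 1 < 2 ^ (2 * (Nat.log 2 N + 1) + 1) := by
          have h3 : N < 2 ^ (Nat.log 2 N + 1) := Nat.lt_pow_succ_log_self (by norm_num) N
          calc n + 2 * k + 1 ≤ 2 * N ^ 2 := hkN
            _ < 2 * (2 ^ (Nat.log 2 N + 1)) ^ 2 := by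
                have := Nat.pow_lt_pow_left h3 (n := 2) (by norm_num)
                omega
            _ = 2 ^ (2 * (Nat.log 2 N + 1) + 1) := by
                rw [← pow_mul, pow_succ]
                ring
        have h4 : Nat.log 2 (n + 2 * k + 1) < 2 * (Nat.log 2 N + 1) + 1 :=
          Nat.log_lt_of_lt_pow (by omega) h2
        omega
      exact_mod_cast h1
    have hk3 : ((k : ℝ) + 1) ≤ min ((m : ℝ) + 1) (((n : ℝ) + 1) ^ 2) := by
      rw [le_min_iff]
      constructor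
      · have : (k : ℝ) ≤ m := by exact_mod_cast hk2
        linarith
      · have h1 : (k : ℝ) ≤ (n : ℝ) ^ 2 := by exact_mod_cast hk1
        have h2 : (0 : ℝ) ≤ n := Nat.cast_nonneg n
        nlinarith
    have hk0 : (0 : ℝ) ≤ (k : ℝ) + 1 := by positivity
    have hc0 : (0 : ℝ) ≤ c := Nat.cast_nonneg c
    have hl1 : (1 : ℝ) ≤ (Nat.log 2 N : ℝ) + 1 := by
      have : (0 : ℝ) ≤ (Nat.log 2 N : ℝ) := Nat.cast_nonneg _
      linarith
    have hl0 : (0 : ℝ) ≤ (Nat.log 2 (n + 2 * k + 1) : ℝ) + 1 := by positivity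
    have hlogN : (Nat.log 2 (n + 1) : ℝ) = Nat.log 2 N := by rw [hN]
    rw [hlogN]
    calc (D : ℝ) ≤ c * ((Nat.log 2 (n + 2 * k + 1) : ℝ) + 1) ^ c * ((k : ℝ) + 1) ^ p :=
          hD
      _ ≤ c * (4 * ((Nat.log 2 N : ℝ) + 1)) ^ c *
          (min ((m : ℝ) + 1) (((n : ℝ) + 1) ^ 2)) ^ p := by
          apply mul_le_mul
          · exact mul_le_mul_of_nonneg_left (pow_le_pow_left₀ hl0 hlog c) hc0
          · exact Real.rpow_le_rpow hk0 hk3 hp
          · positivity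
          · positivity
      _ ≤ ((((c + 2) * 4 ^ (c + 2) : ℕ)) : ℝ) *
          ((Nat.log 2 N : ℝ) + 1) ^ ((c + 2) * 4 ^ (c + 2)) *
          (min ((m : ℝ) + 1) (((n : ℝ) + 1) ^ 2)) ^ p := by
          apply mul_le_mul_of_nonneg_right _ (by positivity)
          rw [mul_pow, ← mul_assoc]
          apply mul_le_mul
          · have h1 : c * 4 ^ c ≤ (c + 2) * 4 ^ (c + 2) :=
              Nat.mul_le_mul (by omega) (Nat.pow_le_pow_right (by norm_num) (by omega))
            exact_mod_cast h1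
          · apply pow_le_pow_right₀ hl1
            calc c ≤ (c + 2) * 1 := by omega
              _ ≤ (c + 2) * 4 ^ (c + 2) :=
                Nat.mul_le_mul le_rfl (Nat.one_le_pow _ _ (by norm_num))
          · positivity
          · positivity
  · intro x v hv e
    obtain ⟨v', h1, h2⟩ := hR x v hv
    rw [hB3, hB2, hB1 (φ e) x v' h1, h2 e]

/-- Both forms with one constant. -/
theorem quarter_wires :
    ∃ c : ℕ,
      (∀ n m : ℕ,
        ∃ (D : ℕ) (B : BCircuit (Bit n m) (c * (n + 2 * m + 1) ^ c))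
          (o : Fin (c * (n + 2 * m + 1) ^ c)),
          (D : ℝ) ≤ c * ((Nat.log 2 (n + 2 * m + 1) : ℝ) + 1) ^ c *
            min (((m : ℝ) + 1) ^ (1 / 4 : ℝ)) (((n : ℝ) + 1) ^ (1 / 2 : ℝ)) ∧
          ∀ (C : CompCircuit n m) (x : Fin n → Bool) (v : Arc n m → Bool), C.IsVal x v →
            ∀ e : Arc n m, B.level (encode C x e) D o = v e) ∧
      ∀ (n m : ℕ) (C : CompCircuit n m),
        ∃ (D : ℕ) (B : BCircuit (Fin n) (c * (n + 1) ^ c))
          (o : Arc n m → Fin (c * (n + 1) ^ c)),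
          (D : ℝ) ≤ c * ((Nat.log 2 (n + 1) : ℝ) + 1) ^ c *
            min (((m : ℝ) + 1) ^ (1 / 4 : ℝ)) (((n : ℝ) + 1) ^ (1 / 2 : ℝ)) ∧
          ∀ (x : Fin n → Bool) (v : Arc n m → Bool), C.IsVal x v →
            ∀ e : Arc n m, B.level x D (o e) = v e := by
  have hQ : Pool.Agent.LibCCQ.FinalQ := Pool.Agent.LibCQ62.quarterRoot
  obtain ⟨c₁, h₁⟩ := hQ
  obtain ⟨c₂, h₂⟩ := wire_of_eval (1 / 4) (by norm_num) ⟨c₁, fun n m => by
    obtain ⟨D, B, o, hD, hB⟩ := h₁ n m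
    exact ⟨D, B, o, hD.trans (mul_le_mul_of_nonneg_left (min_le_left _ _) (by positivity)), hB⟩⟩
  refine ⟨c₁ + c₂, fun n m => ?_, fun n m C => ?_⟩
  · obtain ⟨D, B, o, hD, hB⟩ := h₁ n m
    have hW : c₁ * (n + 2 * m + 1) ^ c₁ ≤ (c₁ + c₂) * (n + 2 * m + 1) ^ (c₁ + c₂) :=
      Nat.mul_le_mul (by omega) (Nat.pow_le_pow_right (by omega) (by omega))
    obtain ⟨B', hB'⟩ := BCircuit.widen hW B
    refine ⟨D, B', Fin.castLE hW o, hD.trans ?_, fun C x v hv e => ?_⟩
    · refine mul_le_mul_of_nonneg_right ?_ (by positivity)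
      have hl : (1 : ℝ) ≤ (Nat.log 2 (n + 2 * m + 1) : ℝ) + 1 := by
        have : (0 : ℝ) ≤ (Nat.log 2 (n + 2 * m + 1) : ℝ) := Nat.cast_nonneg _
        linarith
      refine mul_le_mul ?_ (pow_le_pow_right₀ hl (by omega)) (by positivity) (by positivity)
      push_cast
      have : (0 : ℝ) ≤ c₂ := Nat.cast_nonneg _
      linarith
    · rw [hB', hB C x v hv e]
  · obtain ⟨D, B, o, hD, hB⟩ := h₂ n m C
    have hW : c₂ * (n + 1) ^ c₂ ≤ (c₁ + c₂) * (n + 1) ^ (c₁ + c₂) :=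
      Nat.mul_le_mul (by omega) (Nat.pow_le_pow_right (by omega) (by omega))
    obtain ⟨B', hB'⟩ := BCircuit.widen hW B
    have hmin : (min ((m : ℝ) + 1) (((n : ℝ) + 1) ^ 2)) ^ (1 / 4 : ℝ) ≤
        min (((m : ℝ) + 1) ^ (1 / 4 : ℝ)) (((n : ℝ) + 1) ^ (1 / 2 : ℝ)) := by
      have h0 : (0 : ℝ) ≤ min ((m : ℝ) + 1) (((n : ℝ) + 1) ^ 2) :=
        le_min (by positivity) (by positivity)
      refine le_min (Real.rpow_le_rpow h0 (min_le_left _ _) (by norm_num)) ?_
      refine (Real.rpow_le_rpow h0 (min_le_right _ _) (by norm_num)).trans (le_of_eq ?_)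
      rw [← Real.rpow_natCast, ← Real.rpow_mul (by positivity)]
      norm_num
    refine ⟨D, B', fun e => Fin.castLE hW (o e), hD.trans ?_, fun x v hv e => ?_⟩
    · have hl : (1 : ℝ) ≤ (Nat.log 2 (n + 1) : ℝ) + 1 := by
        have : (0 : ℝ) ≤ (Nat.log 2 (n + 1) : ℝ) := Nat.cast_nonneg _
        linarith
      refine mul_le_mul ?_ hmin (by positivity) (by positivity)
      refine mul_le_mul ?_ (pow_le_pow_right₀ hl (by omega)) (by positivity) (by positivity)
      push_cast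
      have : (0 : ℝ) ≤ c₁ := Nat.cast_nonneg _
      linarith
    · rw [hB', hB x v hv e]

end Pool.Agent.WireCC
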